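import Mathlib
import Pool.Agent.Q160.Tab
import Pool.Agent.Q160.FullTree

/-!
# Automorphisms of the tree of standard Young tableaux (MP_edc67c_co, Q1)
-/

namespace Pool.Agent.Results.MP_edc67c_co.Automorphisms

open Q160.STree

/-- A standard Young tableau, given by its size `n` and its entries: `entry i j` is the entry in
row `i` and column `j` (both counted from `0`), and `0` if there is no cell at `(i, j)`.  Each of
`1, …, n` is used once, rows and columns are increasing, and the nonempty cells form a Young
diagram (if a cell is present then so are the cells just to the left of it and just above it). -/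
@[ext] structure SYT where
  size : ℕ
  entry : ℕ → ℕ → ℕ
  entry_le : ∀ i j, entry i j ≤ size
  used_once : ∀ m, 1 ≤ m → m ≤ size → ∃! c : ℕ × ℕ, entry c.1 c.2 = m
  row_inc : ∀ i j, entry i (j + 1) ≠ 0 → entry i j ≠ 0 ∧ entry i j < entry i (j + 1)
  col_inc : ∀ i j, entry (i + 1) j ≠ 0 → entry i j ≠ 0 ∧ entry i j < entry (i + 1) j

/-- `S` is the parent of `T`: it is obtained from `T` by deleting the largest entry of `T`. -/
def IsChild (S T : SYT) : Prop :=
  T.size = S.size + 1 ∧ ∀ i j, S.entry i j = if T.entry i j = T.size then 0 else T.entry i j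

/-- The tree `SYT`, as a graph. -/
def tree : SimpleGraph SYT where
  Adj S T := IsChild S T ∨ IsChild T S
  symm := ⟨fun _ _ h => h.symm⟩
  loopless := ⟨fun S h => by
    rcases h with ⟨h, _⟩ | ⟨h, _⟩ <;> omega⟩

/-- The shape of `T` is self-conjugate. -/
def SymmShape (T : SYT) : Prop := ∀ i j, T.entry i j ≠ 0 ↔ T.entry j i ≠ 0

/-- `U` is a descendant of `T` (or `T` itself): the entries `≤ |T|` of `U` form `T`. -/
def IsDesc (T U : SYT) : Prop :=
  ∀ i j, T.entry i j = if U.entry i j ≤ T.size then U.entry i j else 0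

/-- `U' = T ∪ Sᵗ`, where `U = T ∪ S` is a descendant of `T` (and `T` has self-conjugate shape). -/
def IsTransposed (T U U' : SYT) : Prop :=
  U'.size = U.size ∧
    ∀ i j, U'.entry i j = if T.entry i j ≠ 0 then T.entry i j else U.entry j i

/-- `ψ` is the transpose automorphism `τ_T`. -/
def IsTransposeAut (T : SYT) (ψ : tree ≃g tree) : Prop :=
  SymmShape T ∧ (∀ U, IsDesc T U → IsTransposed T U (ψ U)) ∧ ∀ U, ¬ IsDesc T U → ψ U = U

/-- `ψ` is the partial transpose automorphism: the descendants `T ∪ S` of `T` (self-conjugate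
shape) whose entry `|T| + 1` is in the cell `(x, y)` or in the cell `(y, x)` are sent to
`T ∪ Sᵗ`, and all other tableaux are fixed. -/
def IsFlip (T : SYT) (x y : ℕ) (ψ : tree ≃g tree) : Prop :=
  SymmShape T ∧
    (∀ U, IsDesc T U → (U.entry x y = T.size + 1 ∨ U.entry y x = T.size + 1) →
      IsTransposed T U (ψ U)) ∧
    ∀ U, ¬ (IsDesc T U ∧ (U.entry x y = T.size + 1 ∨ U.entry y x = T.size + 1)) → ψ U = U

/-! ### The abstract tree -/

lemma SYT.isTab (T : SYT) : IsTab 0 (fun _ => True) T.size T.entry where
  lower := fun i j h => by omega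
  le := T.entry_le
  surj := fun m h1 h2 => by
    obtain ⟨c, hc, _⟩ := T.used_once m h1 h2
    exact ⟨c.1, c.2, hc⟩
  inj := fun i j i' j' h1 h2 => by
    obtain ⟨c, _, hu⟩ := T.used_once (T.entry i j) (by omega) (T.entry_le i j)
    have h3 := hu (i, j) rfl
    have h4 := hu (i', j') h2.symm
    have h5 : (i, j) = (i', j') := h3.trans h4.symm
    simpa using h5
  row := fun i j _ h => T.row_inc i j h
  col := fun i j _ h => T.col_inc i j h
  rows := fun i j h => absurd trivial h

/-- a tableau from `IsTab` -/
def ofIsTab {n : ℕ} {E : ℕ → ℕ → ℕ} (h : IsTab 0 (fun _ => True) n E) : SYT :=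
  ⟨n, E, h.le, fun m h1 h2 => by
      obtain ⟨i, j, hij⟩ := h.surj m h1 h2
      refine ⟨(i, j), hij, ?_⟩
      rintro ⟨i', j'⟩ h'
      simp only at h'
      obtain ⟨h3, h4⟩ := h.inj i j i' j' (by omega) (by rw [hij, h'])
      rw [h3, h4],
    fun i j h' => h.row i j (by omega) h',
    fun i j h' => h.col i j (by omega) h'⟩

/-- The equivalence with the general type of tableaux. -/
def toTab : SYT ≃ Tab 0 (fun _ => True) where
  toFun T := ⟨T.size, T.entry, T.isTab⟩
  invFun T := ofIsTab T.isTab
  left_inv _ := rfl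
  right_inv _ := rfl

/-- The tree structure. -/
noncomputable def 𝒯 : ShapeTree SYT 0 (fun _ => True) :=
  (tabTree 0 (fun _ => True)).pull toTab

lemma child_iff (S T : SYT) : IsChild S T ↔ 𝒯.Child S T := by
  show (T.size = S.size + 1 ∧ ∀ i j, S.entry i j = if T.entry i j = T.size then 0
    else T.entry i j) ↔ (T.size = S.size + 1 ∧ S.entry = rem T.size T.entry)
  constructor
  · rintro ⟨h1, h2⟩
    exact ⟨h1, funext fun i => funext fun j => h2 i j⟩
  · rintro ⟨h1, h2⟩
    exact ⟨h1, fun i j => by rw [h2]; rfl⟩

lemma ne_iff (T : SYT) (i j : ℕ) : T.entry i j ≠ 0 ↔ j < 𝒯.sh T i := by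
  have := T.isTab.ne_iff i j
  rw [Nat.zero_mul, Nat.zero_add] at this
  exact this

lemma sh_eq_of {S : SYT} {r : ℕ → ℕ} (h : ∀ i j, S.entry i j ≠ 0 ↔ j < r i) :
    ∀ i, 𝒯.sh S i = r i := by
  intro i
  have key : ∀ j, j < 𝒯.sh S i ↔ j < r i := fun j => by rw [← ne_iff, h]
  apply le_antisymm
  · by_contra hlt
    push Not at hlt
    have := (key (r i)).mp hlt
    omega
  · by_contra hlt
    push Not at hlt
    have := (key _).mpr hlt
    omega

/-- The transposed tableau. -/
def transp (T : SYT) : SYT := ofIsTab (n := T.size) (E := fun i j => T.entry j i)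
  { lower := fun i j h => by omega
    le := fun i j => T.entry_le j i
    surj := fun m h1 h2 => by
      obtain ⟨i, j, h⟩ := T.isTab.surj m h1 h2
      exact ⟨j, i, h⟩
    inj := fun i j i' j' h1 h2 => by
      obtain ⟨h3, h4⟩ := T.isTab.inj j i j' i' h1 h2
      exact ⟨h4, h3⟩
    row := fun i j _ h => T.col_inc j i h
    col := fun i j _ h => T.row_inc j i h
    rows := fun i j h => absurd trivial h }

/-- transposition as an equivalence -/
def transpE : SYT ≃ SYT where
  toFun := transp
  invFun := transp
  left_inv _ := rfl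
  right_inv _ := rfl

lemma transp_child (S T : SYT) (h : IsChild S T) : IsChild (transp S) (transp T) :=
  ⟨h.1, fun i j => h.2 j i⟩

lemma hG : ∀ v w, tree.Adj v w ↔ 𝒯.Child v w ∨ 𝒯.Child w v := by
  intro v w
  show IsChild v w ∨ IsChild w v ↔ _
  rw [child_iff, child_iff]

lemma map_child (φ : tree ≃g tree) (S T : SYT) : IsChild S T ↔ IsChild (φ S) (φ T) := by
  rw [child_iff, child_iff]
  exact 𝒯.graph_map_child_iff tree hG trivial φ S T

lemma map_size (φ : tree ≃g tree) (T : SYT) : (φ T).size = T.size :=
  𝒯.map_size φ.toEquiv (𝒯.graph_map_child_iff tree hG trivial φ) T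

/-- Shapes are preserved up to conjugation. -/
lemma shape_cases (φ : tree ≃g tree) (T : SYT) :
    (∀ i j, (φ T).entry i j ≠ 0 ↔ T.entry i j ≠ 0) ∨
    (∀ i j, (φ T).entry j i ≠ 0 ↔ T.entry i j ≠ 0) := by
  have h := 𝒯.shape_or_transpose transpE (fun v w => by
      rw [← child_iff, ← child_iff]
      constructor
      · exact transp_child v w
      · intro h
        exact transp_child _ _ h) (fun v => rfl)
    (fun v i j => by
      rw [← ne_iff, ← ne_iff]
      rfl) φ.toEquiv (𝒯.graph_map_child_iff tree hG trivial φ) T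
  rcases h with h | h
  · left
    intro i j
    rw [ne_iff, ne_iff]
    have := h i
    constructor
    · intro h'; rw [← this]; exact h'
    · intro h'; rw [← this] at h'; exact h'
  · right
    intro i j
    have h1 : (φ T).entry j i ≠ 0 ↔ (transp (φ T)).entry i j ≠ 0 := Iff.rfl
    rw [h1, ne_iff, ne_iff]
    have := h i
    constructor
    · intro h'; rw [← this]; exact h'
    · intro h'; rw [← this] at h'; exact h'

/-! ### Partial transpositions -/

section Flip

variable {T : SYT} (hT : SymmShape T)

lemma desc_entry {U : SYT} (hU : IsDesc T U) {i j : ℕ} (h : T.entry i j ≠ 0) :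
    U.entry i j = T.entry i j ∧ T.entry i j ≤ T.size := by
  refine ⟨?_, T.entry_le i j⟩
  have h1 := hU i j
  split_ifs at h1 with h2
  · exact h1.symm
  · exact absurd h1 h

lemma desc_entry' {U : SYT} (hU : IsDesc T U) {i j : ℕ} (h : T.entry i j = 0) :
    U.entry i j = 0 ∨ T.size < U.entry i j := by
  have h1 := hU i j
  split_ifs at h1 with h2
  · left; omega
  · right; omega

lemma symm_zero (hT : SymmShape T) {i j : ℕ} (h : T.entry i j = 0) : T.entry j i = 0 := by
  by_contra hne
  exact (hT j i).mp hne h

/-- The entries of the transposed descendant. -/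
def tEntry (T U : SYT) (i j : ℕ) : ℕ := if T.entry i j ≠ 0 then T.entry i j else U.entry j i

lemma tEntry_pos {U : SYT} {i j : ℕ} (h : T.entry i j ≠ 0) : tEntry T U i j = T.entry i j := by
  unfold tEntry; rw [if_pos h]

lemma tEntry_neg {U : SYT} {i j : ℕ} (h : T.entry i j = 0) : tEntry T U i j = U.entry j i := by
  unfold tEntry; rw [if_neg (by simpa using h)]

include hT

omit hT in
lemma size_le_of_desc' {U : SYT} (hU : IsDesc T U) : T.size ≤ U.size := by
  by_contra hlt
  push Not at hlt
  obtain ⟨i, j, hij⟩ := T.isTab.surj T.size (by omega) le_rfl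
  have h1 := (desc_entry hU (i := i) (j := j) (by omega)).1
  have := U.entry_le i j
  omega

lemma tEntry_isTab {U : SYT} (hU : IsDesc T U) :
    IsTab 0 (fun _ => True) U.size (tEntry T U) where
  lower := fun i j h => by omega
  le := fun i j => by
    by_cases h : T.entry i j = 0
    · rw [tEntry_neg h]; exact U.entry_le j i
    · rw [tEntry_pos h]
      exact (T.entry_le i j).trans (size_le_of_desc' hU)
  surj := fun m h1 h2 => by
    by_cases h3 : m ≤ T.size
    · obtain ⟨i, j, hij⟩ := T.isTab.surj m h1 h3
      exact ⟨i, j, by rw [tEntry_pos (by omega)]; exact hij⟩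
    · obtain ⟨i, j, hij⟩ := U.isTab.surj m h1 h2
      have h4 : T.entry i j = 0 := by
        by_contra hne
        have := desc_entry hU hne
        omega
      exact ⟨j, i, by rw [tEntry_neg (symm_zero hT h4)]; exact hij⟩
  inj := fun i j i' j' h1 h2 => by
    by_cases h3 : T.entry i j = 0 <;> by_cases h4 : T.entry i' j' = 0
    · rw [tEntry_neg h3] at h1 h2
      rw [tEntry_neg h4] at h2
      obtain ⟨h5, h6⟩ := U.isTab.inj j i j' i' h1 h2
      exact ⟨h6, h5⟩
    · rw [tEntry_neg h3] at h1 h2
      rw [tEntry_pos h4] at h2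
      have h5 := desc_entry' hU (symm_zero hT h3)
      have := T.entry_le i' j'
      omega
    · rw [tEntry_pos h3, tEntry_neg h4] at h2
      rw [tEntry_pos h3] at h1
      have h5 := desc_entry' hU (symm_zero hT h4)
      have := T.entry_le i j
      omega
    · rw [tEntry_pos h3] at h1 h2
      rw [tEntry_pos h4] at h2
      exact T.isTab.inj i j i' j' h1 h2
  row := fun i j _ h => by
    by_cases h1 : T.entry i (j + 1) = 0
    · rw [tEntry_neg h1] at h ⊢
      have h2 := U.col_inc j i h
      by_cases h3 : T.entry i j = 0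
      · rw [tEntry_neg h3]; exact h2
      · rw [tEntry_pos h3]
        refine ⟨h3, ?_⟩
        have h4 := desc_entry' hU (symm_zero hT h1)
        have := T.entry_le i j
        omega
    · have h2 := T.row_inc i j h1
      rw [tEntry_pos h1, tEntry_pos h2.1]
      exact h2
  col := fun i j _ h => by
    by_cases h1 : T.entry (i + 1) j = 0
    · rw [tEntry_neg h1] at h ⊢
      have h2 := U.row_inc j i h
      by_cases h3 : T.entry i j = 0
      · rw [tEntry_neg h3]; exact h2
      · rw [tEntry_pos h3]
        refine ⟨h3, ?_⟩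
        have h4 := desc_entry' hU (symm_zero hT h1)
        have := T.entry_le i j
        omega
    · have h2 := T.col_inc i j h1
      rw [tEntry_pos h1, tEntry_pos h2.1]
      exact h2
  rows := fun i j h => absurd trivial h

/-- The transposed descendant. -/
def tDesc (U : SYT) (hU : IsDesc T U) : SYT := ofIsTab (tEntry_isTab hT hU)

lemma tDesc_isDesc {U : SYT} (hU : IsDesc T U) : IsDesc T (tDesc hT U hU) := by
  intro i j
  show T.entry i j = if tEntry T U i j ≤ T.size then tEntry T U i j else 0
  by_cases h : T.entry i j = 0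
  · rw [tEntry_neg h, h]
    rcases desc_entry' hU (symm_zero hT h) with h1 | h1
    · rw [h1]; simp
    · rw [if_neg (by omega)]
  · rw [tEntry_pos h, if_pos (T.entry_le i j)]

lemma tDesc_tDesc {U : SYT} (hU : IsDesc T U) :
    tDesc hT (tDesc hT U hU) (tDesc_isDesc hT hU) = U := by
  apply SYT.ext
  · rfl
  · funext i j
    show tEntry T (tDesc hT U hU) i j = U.entry i j
    by_cases h : T.entry i j = 0
    · rw [tEntry_neg h]
      show tEntry T U j i = U.entry i j
      rw [tEntry_neg (symm_zero hT h)]
    · rw [tEntry_pos h]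
      exact (desc_entry hU h).1.symm

omit hT in
/-- selection of descendants by the position of the entry `|T| + 1` -/
def Sel (T : SYT) (C : ℕ → ℕ → Prop) (U : SYT) : Prop :=
  IsDesc T U ∧ ∃ x y, C x y ∧ U.entry x y = T.size + 1

open Classical in
/-- the partial transposition -/
noncomputable def flip (C : ℕ → ℕ → Prop) (U : SYT) : SYT :=
  if h : Sel T C U then tDesc hT U h.1 else U

lemma flip_pos {C : ℕ → ℕ → Prop} {U : SYT} (h : Sel T C U) : flip hT C U = tDesc hT U h.1 := by
  unfold flip; rw [dif_pos h]

lemma flip_neg {C : ℕ → ℕ → Prop} {U : SYT} (h : ¬ Sel T C U) : flip hT C U = U := by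
  unfold flip; rw [dif_neg h]

lemma sel_tDesc {C : ℕ → ℕ → Prop} (hC : ∀ x y, C x y → C y x) {U : SYT} (h : Sel T C U) :
    Sel T C (tDesc hT U h.1) := by
  refine ⟨tDesc_isDesc hT h.1, ?_⟩
  obtain ⟨hU, x, y, hxy, he⟩ := h
  refine ⟨y, x, hC x y hxy, ?_⟩
  show tEntry T U y x = T.size + 1
  have h1 : T.entry x y = 0 := by
    by_contra hne
    have := desc_entry hU hne
    omega
  rw [tEntry_neg (symm_zero hT h1)]
  exact he

lemma flip_flip {C : ℕ → ℕ → Prop} (hC : ∀ x y, C x y → C y x) (U : SYT) :
    flip hT C (flip hT C U) = U := by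
  by_cases h : Sel T C U
  · rw [flip_pos hT h, flip_pos hT (sel_tDesc hT hC h)]
    exact tDesc_tDesc hT h.1
  · rw [flip_neg hT h, flip_neg hT h]

lemma flip_child {C : ℕ → ℕ → Prop} {S U : SYT} (hSU : IsChild S U) :
    IsChild (flip hT C S) (flip hT C U) := by
  have hdesc : T.size ≤ S.size → (IsDesc T S ↔ IsDesc T U) := by
    intro hle
    have key : ∀ i j, (if S.entry i j ≤ T.size then S.entry i j else 0)
        = if U.entry i j ≤ T.size then U.entry i j else 0 := by
      intro i j
      rw [hSU.2 i j]
      have h1 := hSU.1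
      by_cases h : U.entry i j = U.size
      · rw [if_pos h, if_pos (by omega), if_neg (by omega)]
      · rw [if_neg h]
    constructor
    · intro h i j; rw [← key]; exact h i j
    · intro h i j; rw [key]; exact h i j
  by_cases h : Sel T C S
  · have hUs : Sel T C U := by
      obtain ⟨hS, x, y, hxy, he⟩ := h
      refine ⟨(hdesc (size_le_of_desc' hS)).mp hS, x, y, hxy, ?_⟩
      have h1 := hSU.2 x y
      split_ifs at h1 with h2 <;> omega
    rw [flip_pos hT h, flip_pos hT hUs]
    refine ⟨hSU.1, ?_⟩
    intro i j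
    show tEntry T S i j = if tEntry T U i j = U.size then 0 else tEntry T U i j
    have h1 := hSU.1
    have h2 := size_le_of_desc' h.1
    by_cases h3 : T.entry i j = 0
    · rw [tEntry_neg h3, tEntry_neg h3]
      exact hSU.2 j i
    · rw [tEntry_pos h3, tEntry_pos h3]
      have := T.entry_le i j
      rw [if_neg (by omega)]
  · by_cases hUs : Sel T C U
    · -- then `S = T`
      have hle := size_le_of_desc' hUs.1
      obtain ⟨hU, x, y, hxy, he⟩ := id hUs
      have h1 := hSU.1
      have h2 := U.entry_le x y
      have hsz : S.size = T.size := by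
        by_contra hne
        apply h
        refine ⟨(hdesc (by omega)).mpr hU, x, y, hxy, ?_⟩
        rw [hSU.2 x y, if_neg (by omega)]
        exact he
      have hST : S = T := by
        apply SYT.ext hsz
        funext i j
        rw [hSU.2 i j, hU i j]
        have := U.entry_le i j
        by_cases h3 : U.entry i j = U.size
        · rw [if_pos h3, if_neg (by omega)]
        · rw [if_neg h3, if_pos (by omega)]
      rw [flip_neg hT h, flip_pos hT hUs, hST]
      refine ⟨by show U.size = T.size + 1; omega, ?_⟩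
      intro i j
      show T.entry i j = if tEntry T U i j = U.size then 0 else tEntry T U i j
      by_cases h3 : T.entry i j = 0
      · rw [tEntry_neg h3, h3]
        rcases desc_entry' hU (symm_zero hT h3) with h4 | h4
        · rw [h4]; simp
        · have := U.entry_le j i
          rw [if_pos (by omega)]
      · rw [tEntry_pos h3]
        have := T.entry_le i j
        rw [if_neg (by omega)]
    · rw [flip_neg hT h, flip_neg hT hUs]
      exact hSU

/-- The partial transposition as an automorphism. -/
noncomputable def flipIso (C : ℕ → ℕ → Prop) (hC : ∀ x y, C x y → C y x) : tree ≃g tree where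
  toFun := flip hT C
  invFun := flip hT C
  left_inv := flip_flip hT hC
  right_inv := flip_flip hT hC
  map_rel_iff' := by
    intro S U
    have key : ∀ S U, IsChild (flip hT C S) (flip hT C U) ↔ IsChild S U := by
      intro S U
      constructor
      · intro h
        have := flip_child hT (C := C) h
        rw [flip_flip hT hC, flip_flip hT hC] at this
        exact this
      · exact flip_child hT
    exact or_congr (key S U) (key U S)

lemma flipIso_apply (C : ℕ → ℕ → Prop) (hC : ∀ x y, C x y → C y x) (U : SYT) :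
    flipIso hT C hC U = flip hT C U := rfl

lemma exists_transposeAut : ∃ ψ, IsTransposeAut T ψ := by
  refine ⟨flipIso hT (fun _ _ => True) (fun _ _ _ => trivial), hT, ?_, ?_⟩
  · intro U hU
    rw [flipIso_apply]
    by_cases h : Sel T (fun _ _ => True) U
    · rw [flip_pos hT h]
      exact ⟨rfl, fun i j => rfl⟩
    · -- `U = T`
      rw [flip_neg hT h]
      have hle := size_le_of_desc' hU
      have hsz : U.size = T.size := by
        by_contra hne
        obtain ⟨i, j, hij⟩ := U.isTab.surj (T.size + 1) (by omega) (by omega)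
        exact h ⟨hU, i, j, trivial, hij⟩
      refine ⟨rfl, ?_⟩
      intro i j
      by_cases h3 : T.entry i j = 0
      · rw [if_neg (by simpa using h3)]
        have h4 := desc_entry' hU h3
        have h5 := desc_entry' hU (symm_zero hT h3)
        have := U.entry_le i j
        have := U.entry_le j i
        omega
      · rw [if_pos h3]
        exact (desc_entry hU h3).1
  · intro U hU
    rw [flipIso_apply]
    exact flip_neg hT (fun h => hU h.1)

lemma exists_flip (x y : ℕ) : ∃ ψ, IsFlip T x y ψ := by
  refine ⟨flipIso hT (fun a b => (a = x ∧ b = y) ∨ (a = y ∧ b = x)) (by tauto), hT, ?_, ?_⟩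
  · intro U hU hsel
    rw [flipIso_apply]
    have h : Sel T (fun a b => (a = x ∧ b = y) ∨ (a = y ∧ b = x)) U := by
      refine ⟨hU, ?_⟩
      rcases hsel with h | h
      · exact ⟨x, y, Or.inl ⟨rfl, rfl⟩, h⟩
      · exact ⟨y, x, Or.inr ⟨rfl, rfl⟩, h⟩
    rw [flip_pos hT h]
    exact ⟨rfl, fun i j => rfl⟩
  · intro U hU
    rw [flipIso_apply]
    apply flip_neg hT
    rintro ⟨h1, a, b, h2, h3⟩
    apply hU
    refine ⟨h1, ?_⟩
    rcases h2 with ⟨rfl, rfl⟩ | ⟨rfl, rfl⟩
    · exact Or.inl h3
    · exact Or.inr h3

end Flip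

/-! ### Every automorphism is a composition of partial transpositions -/

lemma entry_lower (U : SYT) : ∀ i j, U.entry i j ≠ 0 → i + j < U.entry i j := by
  intro i
  induction i with
  | zero =>
    intro j
    induction j with
    | zero => intro h; omega
    | succ j ih =>
      intro h
      have h1 := U.row_inc 0 j h
      have h2 := ih h1.1
      omega
  | succ i ih =>
    intro j h
    have h1 := U.col_inc i j h
    have h2 := ih j h1.1
    omega

lemma finite_size (m : ℕ) : {U : SYT | U.size = m}.Finite := by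
  let f : SYT → (Fin (m + 1) → Fin (m + 1) → ℕ) := fun U i j => U.entry i j
  have hf : Set.InjOn f {U : SYT | U.size = m} := by
    intro U hU U' hU' h
    have hU0 : U.size = m := hU
    have hU0' : U'.size = m := hU'
    apply SYT.ext (hU0.trans hU0'.symm)
    funext i j
    by_cases hi : i < m + 1 ∧ j < m + 1
    · have := congrFun (congrFun h ⟨i, hi.1⟩) ⟨j, hi.2⟩
      exact this
    · have key : ∀ W : SYT, W.size = m → W.entry i j = 0 := by
        intro W hW
        by_contra hne
        have h1 := entry_lower W i j hne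
        have h2 := W.entry_le i j
        omega
      rw [key U hU0, key U' hU0']
  apply Set.Finite.of_finite_image _ hf
  have hsub : f '' {U : SYT | U.size = m} ⊆
      Set.pi Set.univ (fun _ => Set.pi Set.univ (fun _ => Set.Iic m)) := by
    rintro _ ⟨U, hU, rfl⟩
    have hU0 : U.size = m := hU
    intro i _ j _
    exact (U.entry_le i j).trans hU0.le
  apply Set.Finite.subset _ hsub
  apply Set.Finite.pi
  intro _
  apply Set.Finite.pi
  intro _
  exact Set.finite_Iic m

lemma exists_parent (U : SYT) (h : 1 ≤ U.size) : ∃ T, IsChild T U := by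
  have hne : U ≠ 𝒯.root := by
    intro h0
    have h1 : 𝒯.size U = 0 := by rw [h0]; exact 𝒯.size_root
    have h2 : 𝒯.size U = U.size := rfl
    omega
  obtain ⟨p, hp⟩ := 𝒯.parent U hne
  exact ⟨p, (child_iff _ _).mpr hp⟩

lemma child_desc {T U : SYT} (h : IsChild T U) : IsDesc T U := by
  intro i j
  rw [h.2 i j]
  have h1 := h.1
  have h2 := U.entry_le i j
  by_cases h3 : U.entry i j = U.size
  · rw [if_pos h3, if_neg (by omega)]
  · rw [if_neg h3, if_pos (by omega)]

/-- the new cell of a child -/
lemma child_cell {T U : SYT} (h : IsChild T U) : ∃ x y, U.entry x y = T.size + 1 ∧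
    T.entry x y = 0 ∧ ∀ i j, U.entry i j = if i = x ∧ j = y then T.size + 1 else T.entry i j := by
  have h1 := h.1
  obtain ⟨x, y, hxy⟩ := U.isTab.surj (T.size + 1) (by omega) (by omega)
  refine ⟨x, y, hxy, ?_, ?_⟩
  · rw [h.2 x y, if_pos (by omega)]
  · intro i j
    by_cases h2 : i = x ∧ j = y
    · rw [if_pos h2, h2.1, h2.2]; exact hxy
    · rw [if_neg h2, h.2 i j, if_neg]
      intro h3
      apply h2
      exact U.isTab.inj i j x y (by omega) (by rw [h3, hxy, h1])

/-- The local structure: an automorphism fixing `T` moves a child `U` of `T` only if the shape of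
`T` is self-conjugate, and then the new cell is transposed. -/
lemma moved_child (χ : tree ≃g tree) {T U : SYT} (hTU : IsChild T U) (hχT : χ T = T)
    (hne : χ U ≠ U) : SymmShape T ∧ ∃ x y, U.entry x y = T.size + 1 ∧
      (χ U).entry y x = T.size + 1 ∧ U.entry y x ≠ T.size + 1 := by
  have h1 : IsChild T (χ U) := by
    have := (map_child χ T U).mp hTU
    rwa [hχT] at this
  obtain ⟨x, y, hU1, hU2, hU3⟩ := child_cell hTU
  obtain ⟨x', y', hV1, hV2, hV3⟩ := child_cell h1
  have hcell : ¬ (x' = x ∧ y' = y) := by
    rintro ⟨rfl, rfl⟩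
    apply hne
    apply SYT.ext (by rw [hTU.1, h1.1])
    funext i j
    rw [hU3, hV3]
  have hU4 : ∀ i j, U.entry i j ≠ 0 ↔ (i = x ∧ j = y) ∨ T.entry i j ≠ 0 := by
    intro i j
    rw [hU3]
    by_cases h : i = x ∧ j = y
    · simp [h]
    · simp [h]
  have hV4 : ∀ i j, (χ U).entry i j ≠ 0 ↔ (i = x' ∧ j = y') ∨ T.entry i j ≠ 0 := by
    intro i j
    rw [hV3]
    by_cases h : i = x' ∧ j = y'
    · simp [h]
    · simp [h]
  rcases shape_cases χ U with hs | hs
  · exfalso
    have h2 := (hs x y).mpr (by rw [hU1]; omega)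
    rw [hV4] at h2
    rcases h2 with h2 | h2
    · exact hcell ⟨h2.1.symm, h2.2.symm⟩
    · exact h2 hU2
  · -- the new cell of `χ U` is `(y, x)`
    have hc : x' = y ∧ y' = x := by
      by_contra hcon
      have h2 := (hs x y).mpr (by rw [hU1]; omega)
      rw [hV4] at h2
      have h3 : T.entry y x ≠ 0 := by
        rcases h2 with h2 | h2
        · exact absurd ⟨h2.1.symm, h2.2.symm⟩ hcon
        · exact h2
      have h4 : U.entry y x ≠ 0 := (hU4 y x).mpr (Or.inr h3)
      have h5 := (hs y x).mpr h4
      rw [hV4] at h5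
      rcases h5 with h5 | h5
      · exact hcell ⟨h5.1.symm, h5.2.symm⟩
      · exact h5 hU2
    obtain ⟨rfl, rfl⟩ := hc
    refine ⟨?_, y', x', hU1, hV1, ?_⟩
    · have key : ∀ i j, T.entry i j ≠ 0 → T.entry j i ≠ 0 := by
        intro i j h
        have h2 := (hs i j).mpr ((hU4 i j).mpr (Or.inr h))
        rw [hV4] at h2
        rcases h2 with h2 | h2
        · exfalso
          rw [h2.1, h2.2] at h
          exact h hU2
        · exact h2
      exact fun i j => ⟨key i j, key j i⟩
    · intro h
      rw [hU3, hV2, if_neg hcell] at h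
      omega

/-- The group generated by the partial transpositions. -/
def flipGroup : Subgroup (tree ≃g tree) := Subgroup.closure {ψ | ∃ T x y, IsFlip T x y ψ}

lemma step_lemma (N : ℕ) : ∀ (m : ℕ) (χ : tree ≃g tree), (∀ U, U.size ≤ N → χ U = U) →
    {U : SYT | U.size = N + 1 ∧ χ U ≠ U}.ncard = m →
    ∃ ψ ∈ flipGroup, ∀ U, U.size ≤ N + 1 → χ U = ψ U := by
  intro m
  induction m using Nat.strong_induction_on with
  | _ m ih =>
    intro χ hχ hm
    have hfin : {U : SYT | U.size = N + 1 ∧ χ U ≠ U}.Finite :=
      (finite_size (N + 1)).subset (fun U hU => hU.1)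
    by_cases hempty : {U : SYT | U.size = N + 1 ∧ χ U ≠ U} = ∅
    · refine ⟨1, Subgroup.one_mem _, ?_⟩
      intro U hU
      show χ U = U
      by_cases h : U.size ≤ N
      · exact hχ U h
      · by_contra hne
        have : U ∈ {U : SYT | U.size = N + 1 ∧ χ U ≠ U} := ⟨by omega, hne⟩
        rw [hempty] at this
        exact this
    · obtain ⟨U, hU1, hU2⟩ := Set.nonempty_iff_ne_empty.mpr hempty
      obtain ⟨T, hTU⟩ := exists_parent U (by omega)
      have hTsz : T.size = N := by have := hTU.1; omega
      have hχT : χ T = T := hχ T (by omega)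
      obtain ⟨hT, x, y, hx, hy, hne⟩ := moved_child χ hTU hχT hU2
      obtain ⟨σ, hσ⟩ := exists_flip hT x y
      have hσmem : σ ∈ flipGroup := Subgroup.subset_closure ⟨T, x, y, hσ⟩
      -- `σ` fixes the vertices of size `≤ N`
      have hσN : ∀ W, W.size ≤ N → σ W = W := by
        intro W hW
        apply hσ.2.2
        rintro ⟨_, h⟩
        have h3 := W.entry_le x y
        have h4 := W.entry_le y x
        omega
      have hχU : IsChild T (χ U) := by
        have := (map_child χ T U).mp hTU
        rwa [hχT] at this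
      -- σ (χ U) = U
      have hσU : σ (χ U) = U := by
        obtain ⟨h1, h2⟩ := hσ.2.1 (χ U) (child_desc hχU) (Or.inr hy)
        apply SYT.ext (by rw [h1, map_size])
        funext i j
        rw [h2]
        by_cases h3 : T.entry i j = 0
        · rw [if_neg (by simpa using h3)]
          have hz := symm_zero hT h3
          obtain ⟨a, b, ha, _, hab⟩ := child_cell hTU
          obtain ⟨a', b', ha', _, hab'⟩ := child_cell hχU
          have e1 := U.isTab.inj a b x y (by omega) (by rw [ha, hx])
          have e2 := (χ U).isTab.inj a' b' y x (by omega) (by rw [ha', hy])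
          rw [hab, hab', e1.1, e1.2, e2.1, e2.2, h3, hz]
          by_cases h4 : i = x ∧ j = y
          · rw [if_pos h4, if_pos ⟨h4.2, h4.1⟩]
          · rw [if_neg h4, if_neg (fun h => h4 ⟨h.2, h.1⟩)]
        · rw [if_pos h3]
          exact (desc_entry (child_desc hTU) h3).1.symm
      -- the new automorphism
      have hχ' : ∀ W, W.size ≤ N → (χ.trans σ) W = W := by
        intro W hW
        show σ (χ W) = W
        rw [hχ W hW]
        exact hσN W hW
      have hless : {W : SYT | W.size = N + 1 ∧ (χ.trans σ) W ≠ W} ⊂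
          {U : SYT | U.size = N + 1 ∧ χ U ≠ U} := by
        refine ⟨?_, ?_⟩
        · rintro W ⟨hW1, hW2⟩
          refine ⟨hW1, ?_⟩
          intro hW3
          -- `χ W = W`, so `σ W ≠ W`
          have hW4 : σ W ≠ W := by
            intro h
            apply hW2
            show σ (χ W) = W
            rw [hW3, h]
          have hW5 : IsDesc T W ∧ (W.entry x y = T.size + 1 ∨ W.entry y x = T.size + 1) := by
            by_contra hcon
            exact hW4 (hσ.2.2 W hcon)
          obtain ⟨hW6, hW7⟩ := hW5
          have hTW : IsChild T W := by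
            refine ⟨by omega, ?_⟩
            intro i j
            rw [hW6 i j]
            have := W.entry_le i j
            by_cases h : W.entry i j = W.size
            · rw [if_neg (by omega), if_pos h]
            · rw [if_pos (by omega), if_neg h]
          -- `W = U` or `W = χ U`
          have key : ∀ A B : SYT, IsChild T A → IsChild T B → ∀ a b, A.entry a b = T.size + 1 →
              B.entry a b = T.size + 1 → A = B := by
            intro A B hA hB a b h1 h2
            obtain ⟨p, q, hp, _, hpq⟩ := child_cell hA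
            obtain ⟨p', q', hp', _, hpq'⟩ := child_cell hB
            have e1 := A.isTab.inj p q a b (by omega) (by rw [hp, h1])
            have e2 := B.isTab.inj p' q' a b (by omega) (by rw [hp', h2])
            apply SYT.ext (by rw [hA.1, hB.1])
            funext i j
            rw [hpq, hpq', e1.1, e1.2, e2.1, e2.2]
          rcases hW7 with h | h
          · have : W = U := key W U hTW hTU x y h hx
            rw [this] at hW3
            exact hU2 hW3
          · have : W = χ U := key W (χ U) hTW hχU y x h hy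
            rw [this] at hW3
            exact hU2 (χ.injective hW3)
        · intro hsub
          have h1 := hsub ⟨hU1, hU2⟩
          exact h1.2 hσU
      have hcard := Set.ncard_lt_ncard hless hfin
      obtain ⟨ψ, hψ, hψ2⟩ := ih _ (by rw [← hm]; exact hcard) (χ.trans σ) hχ' rfl
      refine ⟨σ⁻¹ * ψ, Subgroup.mul_mem _ (Subgroup.inv_mem _ hσmem) hψ, ?_⟩
      intro W hW
      show χ W = σ.symm (ψ W)
      rw [← hψ2 W hW]
      show χ W = σ.symm (σ (χ W))
      rw [σ.symm_apply_apply]

lemma approx (φ : tree ≃g tree) (N : ℕ) :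
    ∃ ψ ∈ flipGroup, ∀ U, U.size ≤ N → φ U = ψ U := by
  induction N with
  | zero =>
    refine ⟨1, Subgroup.one_mem _, ?_⟩
    intro U hU
    show φ U = U
    have h1 : U = 𝒯.root := 𝒯.size_eq_zero U (by
      have : 𝒯.size U = U.size := rfl
      omega)
    rw [h1]
    exact 𝒯.graph_map_root tree hG trivial φ
  | succ N ih =>
    obtain ⟨ψ, hψ, h⟩ := ih
    obtain ⟨ψ', hψ', h'⟩ := step_lemma N _ (φ.trans ψ.symm) (fun U hU => by
      show ψ.symm (φ U) = U
      rw [h U hU, ψ.symm_apply_apply]) rfl
    refine ⟨ψ * ψ', Subgroup.mul_mem _ hψ hψ', ?_⟩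
    intro U hU
    show φ U = ψ (ψ' U)
    rw [← h' U hU]
    show φ U = ψ (ψ.symm (φ U))
    rw [ψ.apply_symm_apply]

/-! ### The transpose automorphisms alone do not suffice -/

/-- The group generated by the transpose automorphisms. -/
def transposeGroup : Subgroup (tree ≃g tree) := Subgroup.closure {ψ | ∃ T, IsTransposeAut T ψ}

/-- `ψ` treats all children of a vertex in the same way. -/
def Uniform (ψ : tree ≃g tree) : Prop := ∀ V,
  (∀ W, IsChild V W → ∀ x y, W.entry x y = W.size → (ψ W).entry x y = W.size) ∨
  (∀ W, IsChild V W → ∀ x y, W.entry x y = W.size → (ψ W).entry y x = W.size)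

lemma uniform_of_mem {ψ : tree ≃g tree} (h : ψ ∈ transposeGroup) : Uniform ψ := by
  induction h using Subgroup.closure_induction with
  | mem ψ hψ =>
    obtain ⟨T, hT, h1, h2⟩ := hψ
    intro V
    by_cases hV : IsDesc T V
    · right
      intro W hVW x y hxy
      have hle := size_le_of_desc' hV
      have hW : IsDesc T W := by
        intro i j
        rw [hV i j, hVW.2 i j]
        have := hVW.1
        by_cases h : W.entry i j = W.size
        · rw [if_pos h, if_neg (by omega : ¬ W.entry i j ≤ T.size)]; simp
        · rw [if_neg h]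
      rw [(h1 W hW).2]
      have h3 : T.entry x y = 0 := by
        by_contra hne
        have := desc_entry hW hne
        have := hVW.1
        omega
      rw [if_neg (by simpa using symm_zero hT h3)]
      exact hxy
    · left
      intro W hVW x y hxy
      by_cases hW : IsDesc T W
      · -- then `W = T`
        have hsz : W.size = T.size := by
          by_contra hne
          apply hV
          have hle := size_le_of_desc' hW
          intro i j
          rw [hW i j, hVW.2 i j]
          have := hVW.1
          by_cases h : W.entry i j = W.size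
          · rw [if_pos h, if_neg (by omega : ¬ W.entry i j ≤ T.size)]; simp
          · rw [if_neg h]
        have h3 : T.entry x y = W.entry x y := by
          rw [hW x y, if_pos (by omega)]
        rw [(h1 W hW).2]
        have := hVW.1
        rw [if_pos (by omega), h3]
        exact hxy
      · rw [h2 W hW]; exact hxy
  | one =>
    intro V
    left
    intro W _ x y h
    exact h
  | mul ψ ψ' _ _ ih ih' =>
    intro V
    have h1 := ih' V
    have h2 := ih (ψ' V)
    have hsz : ∀ W, (ψ' W).size = W.size := fun W => map_size ψ' W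
    rcases h1 with h1 | h1 <;> rcases h2 with h2 | h2
    · left
      intro W hW x y hxy
      have h3 := h2 (ψ' W) ((map_child ψ' V W).mp hW) x y (by rw [hsz]; exact h1 W hW x y hxy)
      rw [hsz] at h3
      exact h3
    · right
      intro W hW x y hxy
      have h3 := h2 (ψ' W) ((map_child ψ' V W).mp hW) x y (by rw [hsz]; exact h1 W hW x y hxy)
      rw [hsz] at h3
      exact h3
    · right
      intro W hW x y hxy
      have h3 := h2 (ψ' W) ((map_child ψ' V W).mp hW) y x (by rw [hsz]; exact h1 W hW x y hxy)
      rw [hsz] at h3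
      exact h3
    · left
      intro W hW x y hxy
      have h3 := h2 (ψ' W) ((map_child ψ' V W).mp hW) y x (by rw [hsz]; exact h1 W hW x y hxy)
      rw [hsz] at h3
      exact h3
  | inv ψ _ ih =>
    intro V
    have hap : ∀ W, ψ (ψ⁻¹ W) = W := fun W => ψ.apply_symm_apply W
    have hsz : ∀ W, (ψ⁻¹ W).size = W.size := fun W => map_size ψ⁻¹ W
    have h1 := ih (ψ⁻¹ V)
    rcases h1 with h1 | h1
    · left
      intro W hW x y hxy
      have hc := (map_child ψ⁻¹ V W).mp hW
      have hpos : 1 ≤ W.size := by have := hW.1; omega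
      obtain ⟨a, b, hab⟩ := (ψ⁻¹ W).isTab.surj W.size hpos (by rw [hsz])
      have h2 := h1 (ψ⁻¹ W) hc a b (by rw [hsz]; exact hab)
      rw [hap, hsz] at h2
      obtain ⟨e1, e2⟩ := W.isTab.inj a b x y (by omega) (by rw [h2, hxy])
      rw [← e1, ← e2]
      exact hab
    · right
      intro W hW x y hxy
      have hc := (map_child ψ⁻¹ V W).mp hW
      have hpos : 1 ≤ W.size := by have := hW.1; omega
      obtain ⟨a, b, hab⟩ := (ψ⁻¹ W).isTab.surj W.size hpos (by rw [hsz])
      have h2 := h1 (ψ⁻¹ W) hc a b (by rw [hsz]; exact hab)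
      rw [hap, hsz] at h2
      obtain ⟨e1, e2⟩ := W.isTab.inj b a x y (by omega) (by rw [h2, hxy])
      rw [← e1, ← e2]
      exact hab

/-- a tableau of shape `(3, 2, 1)` with two of its children -/
lemma exists_staircase : ∃ T W1 W2 : SYT, T.size = 6 ∧ SymmShape T ∧ IsChild T W1 ∧ IsChild T W2 ∧
    W1.entry 0 3 = 7 ∧ W2.entry 1 2 = 7 := by
  obtain ⟨T, _, hT⟩ := 𝒯.reach (κ := fun i => 3 - i) (N := 3)
    (fun i => by right; show 3 - (i + 1) + 0 ≤ 3 - i; omega) (fun _ _ => trivial)
    (fun i hi => by show 3 - i = 0; omega) 𝒯.root (fun i => by rw [𝒯.sh_root]; exact Nat.zero_le _)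
  have hne : ∀ i j, T.entry i j ≠ 0 ↔ j < 3 - i := fun i j => by rw [ne_iff, hT]
  have hsize : T.size = 6 := by
    have h1 := 𝒯.sum_sh T 3 (fun i hi => by rw [hT]; omega)
    have h2 : 𝒯.size T = T.size := rfl
    rw [← h2, ← h1]
    simp [Finset.sum_range_succ, hT]
  have key : ∀ r, Add 0 (fun _ => True) (𝒯.sh T) r → ∃ W, IsChild T W ∧
      W.entry r (3 - r) = 7 := by
    intro r hr
    obtain ⟨W, hW, hsh⟩ := 𝒯.add_child T r hr
    have hW' := (child_iff _ _).mpr hW
    refine ⟨W, hW', ?_⟩
    obtain ⟨x, y, h1, h2, h3⟩ := child_cell hW'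
    have h4 : W.entry r (3 - r) ≠ 0 := by
      rw [ne_iff, hsh, hT, if_pos rfl]; omega
    have h5 := h3 r (3 - r)
    have h6 : T.entry r (3 - r) = 0 := by
      by_contra hcon
      have := (hne r (3 - r)).mp hcon
      omega
    rw [h6] at h5
    split_ifs at h5 with h7
    · rw [h5, hsize]
    · exact absurd h5 h4
  obtain ⟨W1, hW1, h1⟩ := key 0 ⟨trivial, Or.inl rfl⟩
  obtain ⟨W2, hW2, h2⟩ := key 1 ⟨trivial, Or.inr (by rw [hT, hT]; omega)⟩
  refine ⟨T, W1, W2, hsize, ?_, hW1, hW2, h1, h2⟩
  intro i j
  rw [hne, hne]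
  omega

lemma not_all_transposes : ¬ ∀ (φ : tree ≃g tree) (N : ℕ),
    ∃ ψ ∈ transposeGroup, ∀ U, U.size ≤ N → φ U = ψ U := by
  intro hall
  obtain ⟨T, W1, W2, hsize, hT, hW1, hW2, h1, h2⟩ := exists_staircase
  obtain ⟨σ, hσ⟩ := exists_flip hT 1 2
  obtain ⟨ψ, hψ, h⟩ := hall σ 7
  have hs1 : W1.size = 7 := by rw [hW1.1, hsize]
  have hs2 : W2.size = 7 := by rw [hW2.1, hsize]
  have hf1 : σ W1 = W1 := by
    apply hσ.2.2
    rintro ⟨_, h3 | h3⟩
    · have := W1.isTab.inj 0 3 1 2 (by omega) (by rw [h1, h3, hsize])
      omega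
    · have := W1.isTab.inj 0 3 2 1 (by omega) (by rw [h1, h3, hsize])
      omega
  have hf2 : (σ W2).entry 2 1 = 7 := by
    have h3 := (hσ.2.1 W2 (child_desc hW2) (Or.inl (by rw [h2, hsize]))).2 2 1
    have h4 : T.entry 1 2 = 0 := by
      rw [hW2.2 1 2, if_pos (by omega)]
    rw [h3, if_neg (by simpa using symm_zero hT h4)]
    exact h2
  rcases uniform_of_mem hψ T with hu | hu
  · have h3 := hu W2 hW2 1 2 (by omega)
    rw [← h W2 (by omega)] at h3
    have := (σ W2).isTab.inj 2 1 1 2 (by omega) (by rw [hf2, h3, hs2])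
    omega
  · have h3 := hu W1 hW1 0 3 (by omega)
    rw [← h W1 (by omega), hf1] at h3
    have := W1.isTab.inj 3 0 0 3 (by omega) (by rw [h3, h1, hs1])
    omega

/-- **Answer to Q1 of MP_edc67c_co.**

* The transpose automorphisms `τ_T` exist, and so do the partial transpose automorphisms, which
  transpose only the descendants of `T ∪ {(x,y)}` and of `T ∪ {(y,x)}`.
* It is not true that every automorphism agrees, on the tableaux of size `≤ N`, with a finite
  composition of transpose automorphisms.
* But every automorphism agrees, on the tableaux of size `≤ N`, with a finite composition of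
  partial transpose automorphisms.
* Every automorphism preserves the shape of each tableau up to conjugation. -/
theorem result :
    (∀ T, SymmShape T → ∃ ψ, IsTransposeAut T ψ) ∧
    (∀ T, SymmShape T → ∀ x y, ∃ ψ, IsFlip T x y ψ) ∧
    (¬ ∀ (φ : tree ≃g tree) (N : ℕ),
      ∃ ψ ∈ Subgroup.closure {ψ : tree ≃g tree | ∃ T, IsTransposeAut T ψ},
        ∀ U, U.size ≤ N → φ U = ψ U) ∧
    (∀ (φ : tree ≃g tree) (N : ℕ),
      ∃ ψ ∈ Subgroup.closure {ψ : tree ≃g tree | ∃ T x y, IsFlip T x y ψ},
        ∀ U, U.size ≤ N → φ U = ψ U) ∧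
    (∀ (φ : tree ≃g tree) (T : SYT),
      (∀ i j, (φ T).entry i j ≠ 0 ↔ T.entry i j ≠ 0) ∨
      (∀ i j, (φ T).entry j i ≠ 0 ↔ T.entry i j ≠ 0)) :=
  ⟨fun _ hT => exists_transposeAut hT, fun _ hT x y => exists_flip hT x y, not_all_transposes,
    approx, shape_cases⟩

end Pool.Agent.Results.MP_edc67c_co.Automorphisms
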